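import Pool.Agent.MP_a88b1d_nt.H42.Spec

/-! Generators of `GL_2(F_2[T])` and the degeneracy homomorphisms. -/

open Polynomial

namespace Pool.Agent.MP_a88b1d_nt.H14

open Pool.Agent.MP_a88b1d_nt.H42

theorem unit_eq_one {a : A} (h : IsUnit a) : a = 1 := by
  obtain ⟨r, hr, rfl⟩ := Polynomial.isUnit_iff.1 h
  have : ∀ r : ZMod 2, r ≠ 0 → r = 1 := by decide
  rw [this r hr.ne_zero, map_one]

theorem WW_WW : WW * WW = 1 := Units.ext (by simp [WW, Matrix.one_fin_two])

theorem UU_neg (b : A) : UU (-b) * UU b = 1 := Units.ext (by simp [UU, Matrix.one_fin_two])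

theorem gen : GEN := by
  intro S h1 hW hU
  have key : ∀ (c : A) (g : GL (Fin 2) A), g.1 1 0 = c → S g := by
    intro c
    induction c using degree_lt_wf.induction with
    | _ c ih =>
    intro g hg
    by_cases hc : c = 0
    · have hd : IsUnit (g.1 0 0 * g.1 1 1) := by
        have := (Matrix.isUnit_iff_isUnit_det g.1).1 g.isUnit
        rwa [Matrix.det_fin_two, hg, hc, mul_zero, sub_zero] at this
      have e : g = 1 * UU (g.1 0 1) := by
        refine Units.ext ?_
        rw [one_mul, Matrix.eta_fin_two g.1, hg, hc, unit_eq_one (isUnit_of_mul_isUnit_left hd),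
          unit_eq_one (isUnit_of_mul_isUnit_right hd)]
        rfl
      rw [e]
      exact hU _ _ h1
    · have h2 := ih (g.1 1 1 % c) (EuclideanDomain.mod_lt _ hc)
        (g * UU (-(g.1 1 1 / c)) * WW) (by
          rw [EuclideanDomain.mod_eq_sub_mul_div, ← hg]
          simp [UU, WW, Matrix.mul_apply, Fin.sum_univ_two]
          ring)
      have h3 := hU _ (g.1 1 1 / c) (hW _ h2)
      rwa [mul_assoc _ WW WW, WW_WW, mul_one, mul_assoc, UU_neg, mul_one] at h3
  exact fun g => key _ g rfl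

theorem cancel {d : A} (hd : d ≠ 0) {x y : M2 A}
    (h : x * !![d, 0; 0, 1] = y * !![d, 0; 0, 1]) : x = y := by
  ext1 i j
  have h0 := congrFun (congrFun h i) j
  fin_cases j
  · simpa [Matrix.mul_apply, Fin.sum_univ_two, hd] using h0
  · simpa [Matrix.mul_apply, Fin.sum_univ_two] using h0

/-- The conjugate by `diag (d, 1)`. -/
noncomputable def cj (d : A) (x : M2 A) : M2 A := !![x 0 0, d * x 0 1; x 1 0 / d, x 1 1]

theorem cj_spec {d : A} (hd : d ≠ 0) {x : M2 A} (h : d ∣ x 1 0) :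
    !![d, 0; 0, 1] * x = cj d x * !![d, 0; 0, 1] := by
  have e := EuclideanDomain.mul_div_cancel' hd h
  ext1 i j
  fin_cases i <;> fin_cases j <;>
    simp [cj, Matrix.mul_apply, Fin.sum_univ_two, mul_comm, e]

theorem dg : DG := by
  intro n m d hn hmd
  have hd : d ≠ 0 := by
    rintro rfl
    exact hn (by simpa using hmd)
  have hdv : ∀ g : Gam0 n, m * d ∣ g.1.1 1 0 := fun g => hmd.trans g.2
  have sp : ∀ g : Gam0 n, !![d, 0; 0, 1] * g.1.1 = cj d g.1.1 * !![d, 0; 0, 1] := fun g =>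
    cj_spec hd ((dvd_mul_left d m).trans (hdv g))
  have hmul : ∀ g h : Gam0 n, cj d (g * h).1.1 = cj d g.1.1 * cj d h.1.1 := fun g h =>
    cancel hd (by
      rw [← sp, mul_assoc, ← sp, ← mul_assoc, ← sp, mul_assoc]
      rfl)
  have hone : cj d (1 : Gam0 n).1.1 = 1 := cancel hd (by
    rw [← sp, one_mul]
    exact mul_one _)
  let D : Gam0 n → Gam0 m := fun g =>
    ⟨⟨cj d g.1.1, cj d g⁻¹.1.1, by rw [← hmul, mul_inv_cancel, hone],
      by rw [← hmul, inv_mul_cancel, hone]⟩, by
      obtain ⟨e, he⟩ := hdv g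
      refine ⟨e, ?_⟩
      change g.1.1 1 0 / d = m * e
      rw [he, mul_right_comm, mul_div_cancel_right₀ _ hd]⟩
  refine ⟨MonoidHom.mk' D fun g h => Subtype.ext (Units.ext (hmul g h)), fun g g' => ⟨fun h => ?_,
    fun h => ?_⟩⟩
  · exact Subtype.ext (Units.ext (cancel hd (h.symm.trans (sp g))))
  · rw [h]
    exact sp g

end Pool.Agent.MP_a88b1d_nt.H14
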